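import Mathlib
import Pool.Agent.Helper277.ROUniv

set_option autoImplicit false

namespace Pool.Agent.Results.MP_c394df_al.BoundedClassRO

universe u

/-- For every `k` there is `c` such that every group `G` (in any universe) which carries a total
order `r` with `r x y → r (x * b) (y * b)` and satisfies `[x, y, …, y] = 1` (`y` taken `k` times,
`[a, b] = a⁻¹ * b⁻¹ * a * b`) for all `x, y` is nilpotent of class at most `c`. -/
theorem result :
    ∀ k : ℕ, ∃ c : ℕ, ∀ (G : Type u) [Group G],
      (∃ r : G → G → Prop,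
        (∀ x y : G, r x y ∨ r y x) ∧
        (∀ x y : G, r x y → r y x → x = y) ∧
        (∀ x y z : G, r x y → r y z → r x z) ∧
        (∀ x y b : G, r x y → r (x * b) (y * b))) →
      (∀ x y : G, (fun z : G => z⁻¹ * y⁻¹ * z * y)^[k] x = 1) →
      Group.IsNilpotent G ∧ Group.nilpotencyClass G ≤ c := by
  intro k
  obtain ⟨c, hc⟩ := Pool.Agent.Helper277.ROUniv.ro_class'.{u} k
  exact ⟨c, fun G _ hr hE => ⟨(hc G hr hE).1, (hc G hr hE).2.1⟩⟩

end Pool.Agent.Results.MP_c394df_al.BoundedClassRO
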